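import Mathlib
import Pool.Agent.H31.CF.U3

/-!
Row KID: the local identity.
-/

set_option autoImplicit false

open scoped Real Matrix MatrixGroups

namespace Pool.Agent.H17.CFU

open Pool.Agent.H31.CN Pool.Agent.H91.CF Pool.Agent.H31.CF

theorem pf_KID : T_KID := by
  intro p A B C x y hp hA
  have : Fact p.Prime := ⟨hp⟩
  have hpZ : Prime (p : ℤ) := Nat.prime_iff_prime_int.1 hp
  set n := np p A B C with hn
  have hn1 : 1 ≤ n := by
    rw [hn]; unfold np; omega
  have hn0 : (0 : ℝ) < n := by exact_mod_cast hn1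
  set R := (Finset.range p).filter (fun j : ℕ => ¬ (p : ℤ) ∣ A * (j : ℤ) ^ 2 + B * j + C) with hR
  have hnR : (n : ℝ) = 1 + R.card := by
    rw [hn]; unfold np; push_cast; rfl
  set S := (Finset.range p).filter (fun j : ℕ =>
        ¬ (p : ℤ) ∣ A * (j : ℤ) ^ 2 + B * j + C ∧ (p : ℤ) ∣ x - j * y) with hS
  by_cases hy : (p : ℤ) ∣ y
  · have hxy : ∀ j : ℕ, (p : ℤ) ∣ x - j * y ↔ (p : ℤ) ∣ x := fun j => by
      rw [dvd_sub_left (dvd_mul_of_dvd_right hy _)]
    have hval : (p : ℤ) ∣ A * x ^ 2 + B * x * y + C * y ^ 2 ↔ (p : ℤ) ∣ x := by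
      have e : A * x ^ 2 + B * x * y + C * y ^ 2 = A * x ^ 2 + (B * x + C * y) * y := by ring
      rw [e, dvd_add_left (dvd_mul_of_dvd_right hy _)]
      constructor
      · intro h
        rcases hpZ.dvd_or_dvd h with h1 | h1
        · exact absurd h1 hA
        · exact hpZ.dvd_of_dvd_pow h1
      · intro h
        exact dvd_mul_of_dvd_right (dvd_pow h two_ne_zero) _
    by_cases hx : (p : ℤ) ∣ x
    · have hSR : S = R := by
        rw [hS, hR]
        refine Finset.filter_congr fun j _ => ?_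
        rw [hxy]
        exact ⟨fun h => h.1, fun h => ⟨h, hx⟩⟩
      rw [if_pos (hval.2 hx), if_pos hy, hSR, hnR]
      have h0 : (1 : ℝ) + R.card ≠ 0 := by positivity
      field_simp
      ring
    · have hS0 : S = ∅ := by
        rw [hS]
        refine Finset.filter_eq_empty_iff.2 fun j _ h => ?_
        exact hx ((hxy j).1 h.2)
      rw [if_neg (fun h => hx (hval.1 h)), if_pos hy, if_pos hy, hS0]
      simp
  · have hy0 : (y : ZMod p) ≠ 0 := fun h => hy ((ZMod.intCast_zmod_eq_zero_iff_dvd y p).1 h)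
    set j₀ : ℕ := ((x : ZMod p) * (y : ZMod p)⁻¹).val with hj₀
    have hj₀lt : j₀ < p := ZMod.val_lt _
    have hj₀c : ((j₀ : ℕ) : ZMod p) = (x : ZMod p) * (y : ZMod p)⁻¹ := ZMod.natCast_zmod_val _
    have hj : ∀ j : ℕ, j < p → ((p : ℤ) ∣ x - j * y ↔ j = j₀) := by
      intro j hjp
      rw [← ZMod.intCast_zmod_eq_zero_iff_dvd]
      push_cast
      constructor
      · intro h
        have h1 : ((j : ℕ) : ZMod p) = ((j₀ : ℕ) : ZMod p) := by
          rw [hj₀c]
          rw [sub_eq_zero] at h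
          rw [h]
          field_simp
        have h2 := congrArg ZMod.val h1
        rwa [ZMod.val_natCast_of_lt hjp, ZMod.val_natCast_of_lt hj₀lt] at h2
      · intro h
        rw [h, hj₀c]
        field_simp
        ring
    have hd : (p : ℤ) ∣ x - j₀ * y := (hj j₀ hj₀lt).2 rfl
    have hval : (p : ℤ) ∣ A * x ^ 2 + B * x * y + C * y ^ 2 ↔
        (p : ℤ) ∣ A * (j₀ : ℤ) ^ 2 + B * j₀ + C := by
      have e : A * x ^ 2 + B * x * y + C * y ^ 2 =
          (x - j₀ * y) * (A * (x + j₀ * y) + B * y) +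
          y ^ 2 * (A * (j₀ : ℤ) ^ 2 + B * j₀ + C) := by ring
      rw [e, dvd_add_right (dvd_mul_of_dvd_left hd _)]
      constructor
      · intro h
        rcases hpZ.dvd_or_dvd h with h1 | h1
        · exact absurd (hpZ.dvd_of_dvd_pow h1) hy
        · exact h1
      · intro h
        exact dvd_mul_of_dvd_right h _
    by_cases hv : (p : ℤ) ∣ A * x ^ 2 + B * x * y + C * y ^ 2
    · have hS0 : S = ∅ := by
        rw [hS]
        refine Finset.filter_eq_empty_iff.2 fun j hjm h => ?_
        have h1 := (hj j (Finset.mem_range.1 hjm)).1 h.2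
        rw [h1] at h
        exact h.1 (hval.1 hv)
      rw [if_pos hv, if_neg hy, hS0]
      simp
    · have hS1 : S = {j₀} := by
        ext j
        rw [hS, Finset.mem_filter, Finset.mem_singleton, Finset.mem_range]
        constructor
        · rintro ⟨h1, -, h2⟩
          exact (hj j h1).1 h2
        · rintro rfl
          exact ⟨hj₀lt, fun h => hv (hval.2 h), hd⟩
      rw [if_neg hv, if_neg hy, if_neg hy, hS1]
      simp

end Pool.Agent.H17.CFU
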