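import Mathlib
import Pool.Agent.H31.CF.U4

/-!
Row USZ: the sum vanishes at the other discriminants.
-/

set_option autoImplicit false

open scoped Real Matrix MatrixGroups

namespace Pool.Agent.H17.CFU

open Pool.Agent.H31.CN Pool.Agent.H91.CF Pool.Agent.H31.CF

theorem pf_USZ : T_USZ := by
  intro d s m₁ m₂ Δ w h F hd hs hnd
  unfold US
  have key : ∀ (e A B : ℕ), 4 * A ∣ B ^ 2 + Δ →
      ws d s w e A (B : ℤ) (((B ^ 2 + Δ) / (4 * A) : ℕ) : ℤ) = 0 := by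
    intro e A B hB
    unfold ws
    split_ifs with hA
    · refine Finset.sum_eq_zero fun k _ => ?_
      rw [if_neg]
      rintro ⟨h1, h2, -⟩
      apply hnd
      set C : ℕ := (B ^ 2 + Δ) / (4 * A) with hC
      have hBC : 4 * A * C = B ^ 2 + Δ := Nat.mul_div_cancel' hB
      have hBC' : (4 : ℤ) * A * C = (B : ℤ) ^ 2 + Δ := by exact_mod_cast hBC
      have e1 : (Δ : ℤ) = 4 * (A * ((C : ℤ) + B * k + A * (k : ℤ) ^ 2)) -
          ((B : ℤ) + 2 * A * k) ^ 2 := by linear_combination -hBC'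
      have h3 : (((d * s) ^ 2 : ℕ) : ℤ) ∣ (A : ℤ) * ((C : ℤ) + B * k + A * (k : ℤ) ^ 2) := by
        have h4 : (((d ^ 2 : ℕ) : ℤ)) ∣ (A : ℤ) := by exact_mod_cast hA
        have h5 := mul_dvd_mul h4 h2
        have e2 : (((d * s) ^ 2 : ℕ) : ℤ) = ((d ^ 2 : ℕ) : ℤ) * ((s ^ 2 : ℕ) : ℤ) := by
          push_cast; ring
        rw [e2]
        exact h5
      have h6 : (((d * s) ^ 2 : ℕ) : ℤ) ∣ ((B : ℤ) + 2 * A * k) ^ 2 := by
        have := pow_dvd_pow_of_dvd h1 2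
        push_cast at this ⊢
        exact this
      have h7 : (((d * s) ^ 2 : ℕ) : ℤ) ∣ (Δ : ℤ) := by
        rw [e1]
        exact dvd_sub (dvd_mul_of_dvd_right h3 _) h6
      exact_mod_cast h7
    · rfl
  have hz : ∀ p : ℕ × ℕ, (∑ B ∈ (Finset.range (2 * p.2)).filter (fun B => 4 * p.2 ∣ B ^ 2 + Δ),
      (fun (Q : QF) (e : ℕ) => h Q e * ws d s w e Q.1.toNat Q.2.1 Q.2.2 *
      Nw m₁ m₂ Q.1.toNat Q.2.1 Q.2.2 e)
      ((p.2 : ℤ), (B : ℤ), (((B ^ 2 + Δ) / (4 * p.2) : ℕ) : ℤ)) p.1 *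
      F ((p.2 : ℤ), (B : ℤ), (((B ^ 2 + Δ) / (4 * p.2) : ℕ) : ℤ))) = 0 := by
    intro p
    refine Finset.sum_eq_zero fun B hB => ?_
    have hB' := (Finset.mem_filter.1 hB).2
    have h0 := key p.1 p.2 B hB'
    simp only [Int.toNat_natCast]
    rw [h0]
    ring
  rw [tsum_congr hz, tsum_zero]

end Pool.Agent.H17.CFU
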